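import Pool.Agent.Helper75_LeoK.LeorA
import Pool.Agent.Helper65_Leo3.Crt

/-!
Squad leok, module LEOR: relative version of the implication `W3 ⟹ Leopoldt`.
-/

set_option autoImplicit false

open NumberField IsDedekindDomain WithZero Module Filter Topology
open Pool.Agent.Helper85_Leo Pool.Agent.Leo3 Pool.Agent.Leo3.H93 Pool.Agent.LeoK.H59

namespace Pool.Agent.LeoK.H75

/-- coordinates of the image of a unit of the base field -/
lemma crd_inc {k K : Type} [Field k] [NumberField k] [Field K] [NumberField K] [Algebra k K]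
    (u : (𝓞 k)ˣ) (l : Fin (Units.rank K)) :
    crd (inc (K := K) u) l =
      ∑ i, crd u i * crd (inc (K := K) (Units.fundSystem k i)) l := by
  obtain ⟨ζ, h1⟩ := crd_spec u
  have h2 : inc (K := K) u = inc (K := K) (ζ : (𝓞 k)ˣ) *
      ∏ i, inc (K := K) (Units.fundSystem k i) ^ crd u i := by
    conv_lhs => rw [h1]
    rw [map_mul, map_prod]
    congr 1
    refine Finset.prod_congr rfl fun i _ => ?_
    rw [map_zpow]
  have h3 : crd (inc (K := K) (ζ : (𝓞 k)ˣ)) l = 0 := by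
    have h4 : IsOfFinOrder (ζ : (𝓞 k)ˣ) := ζ.2
    obtain ⟨w, hw, hw1⟩ := isOfFinOrder_iff_pow_eq_one.1 h4
    exact crd_tors hw (by rw [← map_pow, hw1, map_one]) l
  rw [h2, crd_mul, h3, zero_add, crd_prod]

/-- congruences for the conjugate -/
lemma dvd_conj {k K : Type} [Field k] [Field K] [NumberField K] [Algebra k K] (τ : K ≃ₐ[k] K)
    (N : ℕ) (u : (𝓞 K)ˣ) (h : ((3 : ℕ) : 𝓞 K) ^ N ∣ ((u : 𝓞 K) - 1)) :
    ((3 : ℕ) : 𝓞 K) ^ N ∣ ((cj τ u : 𝓞 K) - 1) := by
  obtain ⟨y, hy⟩ := h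
  have h1 := congrArg (RingOfIntegers.mapRingEquiv (τ : K ≃+* K)) hy
  rw [map_sub, map_one, map_mul, map_pow, map_natCast] at h1
  exact ⟨_, h1⟩

/-- descent of divisibility -/
lemma dvd_down {k K : Type} [Field k] [NumberField k] [Field K] [NumberField K] [Algebra k K]
    (N : ℕ) (x : 𝓞 k) (h : ((3 : ℕ) : 𝓞 K) ^ N ∣ algebraMap (𝓞 k) (𝓞 K) x) :
    ((3 : ℕ) : 𝓞 k) ^ N ∣ x := by
  obtain ⟨y, hy⟩ := h
  have h30 : ((3 : ℕ) : k) ^ N ≠ 0 := pow_ne_zero _ (Nat.cast_ne_zero.2 (by norm_num))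
  have h30K : ((3 : ℕ) : K) ^ N ≠ 0 := pow_ne_zero _ (Nat.cast_ne_zero.2 (by norm_num))
  have h1 : algebraMap k K (x : k) = ((3 : ℕ) : K) ^ N * (y : K) := by
    have h2 := congrArg (algebraMap (𝓞 K) K) hy
    rw [map_mul, map_pow, map_natCast] at h2
    exact h2
  have h3 : algebraMap k K ((x : k) / ((3 : ℕ) : k) ^ N) = (y : K) := by
    rw [map_div₀, h1, map_pow, map_natCast, mul_div_assoc, mul_div_cancel₀ _ h30K]
  have hint : IsIntegral ℤ ((x : k) / ((3 : ℕ) : k) ^ N) := by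
    rw [← isIntegral_algebraMap_iff (algebraMap k K).injective, h3]
    exact RingOfIntegers.isIntegral_coe y
  obtain ⟨z, hz⟩ : ∃ z : 𝓞 k, algebraMap (𝓞 k) k z = (x : k) / ((3 : ℕ) : k) ^ N :=
    ⟨⟨_, hint⟩, rfl⟩
  refine ⟨z, ?_⟩
  apply FaithfulSMul.algebraMap_injective (𝓞 k) k
  rw [map_mul, map_pow, map_natCast, hz, mul_div_cancel₀ _ h30]

/-- LEOR, with the local cube roots as hypothesis -/
theorem leor_of (hcrt : CrtStmt) : LeorStmt := by
  intro k K _ _ _ _ _ hK hmu hW hLk n ε _ hind a m hm hdiv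
  have : FiniteDimensional k K := Module.finite_of_finrank_pos (by omega)
  have : Algebra.IsQuadraticExtension k K := ⟨hK⟩
  obtain ⟨τ, hτ⟩ : ∃ τ : K ≃ₐ[k] K, τ ≠ 1 := by
    by_contra hno
    push Not at hno
    have h1 : Nat.card (K ≃ₐ[k] K) = 2 := by rw [IsGalois.card_aut_eq_finrank, hK]
    have h2 : Subsingleton (K ≃ₐ[k] K) := ⟨fun x y => by rw [hno x, hno y]⟩
    rw [Nat.card_unique] at h1
    omega
  have hττ : ∀ u : (𝓞 K)ˣ, cj τ (cj τ u) = u := by
    intro u
    have h1 := inc_nrm (k := k) hK τ hτ u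
    have h2 : cj τ (inc (K := K) (nrm (k := k) u)) = inc (K := K) (nrm (k := k) u) := by
      apply unit_ext
      rw [cj_coe, inc_coe, τ.commutes]
    rw [h1, map_mul] at h2
    have h3 : cj τ u * cj τ (cj τ u) = cj τ u * u := by rw [h2, mul_comm]
    exact mul_left_cancel h3
  -- the units of norm 1
  have hminus : ∀ i : Fin (Units.rank K),
      ∑ j, ((crd (ε j * (cj τ (ε j))⁻¹) i : ℤ) : PadicInt 3) * a j = 0 := by
    intro i
    refine rel_minus hcrt hmu hW hK τ hτ (fun j => ε j * (cj τ (ε j))⁻¹) ?_ a m hm ?_ i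
    · intro j
      rw [map_mul, map_inv, hττ]
      group
    · intro N
      refine (hdiv N).mono fun l hl => ?_
      have h1 : ∏ j, (ε j * (cj τ (ε j))⁻¹) ^ m l j =
          (∏ j, ε j ^ m l j) * (cj τ (∏ j, ε j ^ m l j))⁻¹ := by
        rw [map_prod, ← Finset.prod_inv_distrib, ← Finset.prod_mul_distrib]
        refine Finset.prod_congr rfl fun j _ => ?_
        rw [mul_zpow, inv_zpow, map_zpow]
      rw [h1]
      generalize (∏ j, ε j ^ m l j) = u at hl
      have h2 := dvd_conj τ N u hl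
      have h3 : ((u * (cj τ u)⁻¹ : (𝓞 K)ˣ) : 𝓞 K) - 1 =
          (((u : 𝓞 K) - 1) - ((cj τ u : 𝓞 K) - 1)) * (((cj τ u)⁻¹ : (𝓞 K)ˣ) : 𝓞 K) := by
        have h4 : (cj τ u : 𝓞 K) * (((cj τ u)⁻¹ : (𝓞 K)ˣ) : 𝓞 K) = 1 := Units.mul_inv _
        rw [Units.val_mul]
        linear_combination h4
      rw [h3]
      exact Dvd.dvd.mul_right (dvd_sub hl h2) _
  -- the norms
  have hbase : ∀ i : Fin (Units.rank k),
      ∑ j, ((crd (nrm (k := k) (ε j)) i : ℤ) : PadicInt 3) * a j = 0 := by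
    intro i
    refine rel_base hLk (fun j => nrm (k := k) (ε j)) a m hm ?_ i
    intro N
    refine (hdiv N).mono fun l hl => ?_
    have h1 : ∏ j, nrm (k := k) (ε j) ^ m l j = nrm (k := k) (∏ j, ε j ^ m l j) := by
      rw [map_prod]
      refine Finset.prod_congr rfl fun j _ => ?_
      rw [map_zpow]
    rw [h1]
    generalize (∏ j, ε j ^ m l j) = u at hl
    have h2 := dvd_conj τ N u hl
    apply dvd_down (K := K)
    have h3 := congrArg Units.val (inc_nrm (k := k) hK τ hτ u)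
    have h4 : algebraMap (𝓞 k) (𝓞 K) ((nrm (k := k) u : 𝓞 k) - 1) =
        ((u : 𝓞 K) - 1) * (cj τ u : 𝓞 K) + ((cj τ u : 𝓞 K) - 1) := by
      rw [map_sub, map_one]
      have h5 : algebraMap (𝓞 k) (𝓞 K) (nrm (k := k) u : 𝓞 k) = (u : 𝓞 K) * (cj τ u : 𝓞 K) := h3
      rw [h5]
      ring
    rw [h4]
    exact dvd_add (Dvd.dvd.mul_right hl _) h2
  have hplus : ∀ l : Fin (Units.rank K),
      ∑ j, ((crd (ε j * cj τ (ε j)) l : ℤ) : PadicInt 3) * a j = 0 := by
    intro l
    have h1 : ∀ j, ((crd (ε j * cj τ (ε j)) l : ℤ) : PadicInt 3) * a j =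
        ∑ i, ((crd (inc (K := K) (Units.fundSystem k i)) l : ℤ) : PadicInt 3) *
          (((crd (nrm (k := k) (ε j)) i : ℤ) : PadicInt 3) * a j) := by
      intro j
      rw [← inc_nrm (k := k) hK τ hτ (ε j), crd_inc, Int.cast_sum, Finset.sum_mul]
      refine Finset.sum_congr rfl fun i _ => ?_
      push_cast
      ring
    rw [Finset.sum_congr rfl fun j _ => h1 j, Finset.sum_comm]
    refine Finset.sum_eq_zero fun i _ => ?_
    rw [← Finset.mul_sum, hbase i, mul_zero]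
  have hrel : ∀ i : Fin (Units.rank K), ∑ j, ((crd (ε j) i : ℤ) : PadicInt 3) * a j = 0 := by
    intro i
    have h1 : ∀ j, 2 * (((crd (ε j) i : ℤ) : PadicInt 3) * a j) =
        ((crd (ε j * (cj τ (ε j))⁻¹) i : ℤ) : PadicInt 3) * a j +
        ((crd (ε j * cj τ (ε j)) i : ℤ) : PadicInt 3) * a j := by
      intro j
      have h2 : 2 * crd (ε j) i = crd (ε j * (cj τ (ε j))⁻¹) i + crd (ε j * cj τ (ε j)) i := by
        rw [← crd_mul]
        have h3 : ε j * (cj τ (ε j))⁻¹ * (ε j * cj τ (ε j)) = ε j * ε j := by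
          rw [mul_comm (ε j) (cj τ (ε j)), ← mul_assoc, inv_mul_cancel_right]
        rw [h3, crd_mul]
        ring
      have h4 : (2 : PadicInt 3) * ((crd (ε j) i : ℤ) : PadicInt 3) =
          ((crd (ε j * (cj τ (ε j))⁻¹) i : ℤ) : PadicInt 3) +
          ((crd (ε j * cj τ (ε j)) i : ℤ) : PadicInt 3) := by
        have := congrArg (Int.cast : ℤ → PadicInt 3) h2
        push_cast at this
        exact this
      rw [← mul_assoc, h4, add_mul]
    have h5 : (2 : PadicInt 3) * ∑ j, ((crd (ε j) i : ℤ) : PadicInt 3) * a j = 0 := by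
      rw [Finset.mul_sum, Finset.sum_congr rfl fun j _ => h1 j, Finset.sum_add_distrib,
        hminus i, hplus i, add_zero]
    exact (mul_eq_zero.1 h5).resolve_left two_ne_zero
  -- conclusion
  by_contra hne
  obtain ⟨j₀, hj₀⟩ := Function.ne_iff.1 hne
  obtain ⟨z, hz0, hz⟩ := exists_int_solution (V := ℚ_[3]) (fun j => ((a j : PadicInt 3) : ℚ_[3]))
    (fun j i => crd (ε j) i) (by
      intro i
      have h1 := congrArg (fun x : PadicInt 3 => (x : ℚ_[3])) (hrel i)
      simp only [PadicInt.coe_zero] at h1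
      rw [← h1, PadicInt.coe_sum]
      refine Finset.sum_congr rfl fun j _ => ?_
      rw [PadicInt.coe_mul, PadicInt.coe_intCast, Rat.smul_def, Rat.cast_intCast]
      ) j₀ (by
      intro h0
      apply hj₀
      exact Subtype.ext h0)
  obtain ⟨l, hl, hl1⟩ := crd_torsion (∏ j, ε j ^ z j) (by
    intro i
    rw [crd_prod, ← hz i]
    refine Finset.sum_congr rfl fun j _ => ?_
    ring)
  have h2 := hind (fun j => z j * l) (by
    rw [← hl1, ← Finset.prod_pow]
    refine Finset.prod_congr rfl fun j _ => ?_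
    rw [zpow_mul, zpow_natCast])
  have h3 := congrFun h2 j₀
  simp only [Pi.zero_apply, mul_eq_zero] at h3
  rcases h3 with h3 | h3
  · exact hz0 h3
  · omega

/-- LEOR. -/
theorem leor : LeorStmt := leor_of Pool.Agent.Leo3.H65.crt

end Pool.Agent.LeoK.H75
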