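import Pool.Agent.Helper75_LeoK.Redm
import Pool.Agent.Helper59_LeoK.Leo3

/-!
Squad leok, module LEOR, part A: roots of units of norm 1, coordinates of units of the base field.
-/

set_option autoImplicit false

open NumberField IsDedekindDomain WithZero Module Filter Topology
open Pool.Agent.Helper85_Leo Pool.Agent.Leo3 Pool.Agent.Leo3.H93 Pool.Agent.LeoK.H59

namespace Pool.Agent.LeoK.H75

section conj

variable {k K : Type} [Field k] [NumberField k] [Field K] [NumberField K] [Algebra k K]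

/-- conjugation on units -/
noncomputable def cj (τ : K ≃ₐ[k] K) : (𝓞 K)ˣ →* (𝓞 K)ˣ :=
  Units.map ((RingOfIntegers.mapRingEquiv (τ : K ≃+* K) : 𝓞 K ≃+* 𝓞 K) : 𝓞 K →* 𝓞 K)

lemma cj_coe (τ : K ≃ₐ[k] K) (u : (𝓞 K)ˣ) :
    ((cj τ u : 𝓞 K) : K) = τ ((u : 𝓞 K) : K) := rfl

/-- inclusion on units -/
noncomputable def inc : (𝓞 k)ˣ →* (𝓞 K)ˣ := Units.map (algebraMap (𝓞 k) (𝓞 K) : 𝓞 k →* 𝓞 K)

lemma inc_coe (u : (𝓞 k)ˣ) :
    ((inc (K := K) u : 𝓞 K) : K) = algebraMap k K ((u : 𝓞 k) : k) := rfl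

/-- norm on units -/
noncomputable def nrm : (𝓞 K)ˣ →* (𝓞 k)ˣ := Units.map (RingOfIntegers.norm k : 𝓞 K →* 𝓞 k)

lemma unit_ext {u v : (𝓞 K)ˣ} (h : ((u : 𝓞 K) : K) = ((v : 𝓞 K) : K)) : u = v := by
  apply Units.ext
  exact RingOfIntegers.ext h

lemma unit_ne (u : (𝓞 K)ˣ) : ((u : 𝓞 K) : K) ≠ 0 := by
  intro h0
  have : (u : 𝓞 K) = 0 := by
    apply RingOfIntegers.ext
    simpa using h0
  exact u.ne_zero this

lemma inc_nrm [IsGalois k K] (hK : finrank k K = 2) (τ : K ≃ₐ[k] K) (hτ : τ ≠ 1) (u : (𝓞 K)ˣ) :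
    inc (K := K) (nrm (k := k) u) = u * cj τ u := by
  apply unit_ext
  rw [inc_coe]
  have h1 : (((nrm (k := k) u : (𝓞 k)ˣ) : 𝓞 k) : k) = Algebra.norm k ((u : 𝓞 K) : K) := by
    show ((RingOfIntegers.norm k (u : 𝓞 K) : 𝓞 k) : k) = _
    exact RingOfIntegers.coe_norm _ _
  have : FiniteDimensional k K := Module.finite_of_finrank_pos (by omega)
  rw [h1, norm_quad hK τ hτ]
  rfl

/-- extraction of a `3^N`-th root of a unit of norm 1 -/
theorem root_unit_rel (hmu : NoMu K) (hW : WMinus k K) [IsGalois k K] (hK : finrank k K = 2)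
    (τ : K ≃ₐ[k] K) (hτ : τ ≠ 1) (N : ℕ) :
    ∀ u : (𝓞 K)ˣ, u * cj τ u = 1 →
      (∀ φ : K →+* Om, ∃ t, InLoc φ t ∧ t ^ (3 ^ N) = φ ((u : 𝓞 K) : K)) →
      ∃ g : (𝓞 K)ˣ, g ^ (3 ^ N) = u := by
  have : FiniteDimensional k K := Module.finite_of_finrank_pos (by omega)
  induction N with
  | zero => intro u _ _; exact ⟨u, by simp⟩
  | succ N ih =>
    intro u hu1 hu
    have hloc : LocCube ((u : 𝓞 K) : K) := by
      intro φ
      obtain ⟨t, h1, h2⟩ := hu φ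
      refine ⟨t ^ (3 ^ N), InLoc.pow h1 _, ?_⟩
      rw [← pow_mul, ← pow_succ, h2]
    have hn : Algebra.norm k ((u : 𝓞 K) : K) = 1 ^ 3 := by
      apply (algebraMap k K).injective
      rw [norm_quad hK τ hτ, one_pow, map_one, ← cj_coe]
      have h1 := congrArg (fun x : (𝓞 K)ˣ => ((x : 𝓞 K) : K)) hu1
      simpa using h1
    obtain ⟨t, ht⟩ := hW ((u : 𝓞 K) : K) (unit_ne u) ⟨1, hn⟩ (valCube3_unit u) hloc
    obtain ⟨g', hg', hg3⟩ := unit_cube u t ht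
    have hg1 : g' * cj τ g' = 1 := by
      have h1 : (g' * cj τ g') ^ 3 = 1 := by
        rw [mul_pow, ← map_pow, hg3, hu1]
      obtain ⟨φ⟩ : Nonempty (K →+* Om) := ⟨(IsAlgClosed.lift (R := ℚ) (S := K) (M := Om)).toRingHom⟩
      have h2 := hmu φ (φ (((g' * cj τ g' : (𝓞 K)ˣ) : 𝓞 K) : K)) (InLoc.map _) (by
        rw [← map_pow]
        have h3 := congrArg (fun x : (𝓞 K)ˣ => ((x : 𝓞 K) : K)) h1
        simp only [Units.val_pow_eq_pow_val, map_pow, Units.val_one, map_one] at h3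
        rw [h3, map_one])
      apply unit_ext
      apply φ.injective
      rw [h2]
      simp
    obtain ⟨g, hg⟩ := ih g' hg1 (by
      intro φ
      obtain ⟨s, h1, h2⟩ := hu φ
      refine ⟨s, h1, ?_⟩
      rw [hg']
      have h3 : (s ^ (3 ^ N)) ^ 3 = (φ t) ^ 3 := by
        rw [← pow_mul, ← pow_succ, h2, ← ht, map_pow]
      have hs0 : s ^ (3 ^ N) ≠ 0 := by
        intro h0
        rw [h0] at h3
        have h4 : φ t = 0 := by
          have : (φ t) ^ 3 = 0 := by rw [← h3]; simp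
          exact pow_eq_zero_iff (by norm_num) |>.1 this
        have h5 : t = 0 := (map_eq_zero φ).1 h4
        rw [h5] at ht
        have h6 : ((u : 𝓞 K) : K) = 0 := by rw [← ht]; simp
        exact unit_ne u h6
      have h4 := hmu φ (φ t * (s ^ (3 ^ N))⁻¹)
        (InLoc.mul (InLoc.map t) (InLoc.inv (InLoc.pow h1 _))) (by
          rw [mul_pow, inv_pow, h3, mul_inv_cancel₀]
          rw [← h3]
          exact pow_ne_zero _ hs0)
      field_simp at h4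
      exact h4.symm)
    refine ⟨g, ?_⟩
    rw [pow_succ, pow_mul, hg, hg3]

end conj

/-- limit relations: roots of all levels give relations between coordinates -/
theorem crd_lim {L : Type} [Field L] [NumberField L] {n : ℕ} (ε : Fin n → (𝓞 L)ˣ)
    (a : Fin n → PadicInt 3) (M : ℕ → Fin n → ℤ)
    (hM : ∀ N i, ‖((M N i : ℤ) : PadicInt 3) - a i‖ ≤ (3 : ℝ) ^ (-(N : ℤ)))
    (hroot : ∀ N : ℕ, ∃ g : (𝓞 L)ˣ, g ^ (3 ^ N) = ∏ i, ε i ^ M N i) (i : Fin (Units.rank L)) :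
    ∑ j, ((crd (ε j) i : ℤ) : PadicInt 3) * a j = 0 := by
  rw [← norm_le_zero_iff]
  have hlim : Tendsto (fun N : ℕ => (3 : ℝ)⁻¹ ^ N) atTop (𝓝 0) :=
    tendsto_pow_atTop_nhds_zero_of_lt_one (by positivity) (by norm_num)
  refine ge_of_tendsto' hlim ?_
  intro N
  obtain ⟨g, hg⟩ := hroot N
  have h1 : ∑ j, M N j * crd (ε j) i = (3 ^ N : ℤ) * crd g i := by
    rw [← crd_prod, ← hg]
    have := crd_zpow g ((3 ^ N : ℕ) : ℤ) i
    rw [zpow_natCast] at this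
    rw [this]
    push_cast
    ring
  have e : ∑ j, ((crd (ε j) i : ℤ) : PadicInt 3) * a j
      = (((3 ^ N : ℤ) * crd g i : ℤ) : PadicInt 3)
        - ∑ j, ((crd (ε j) i : ℤ) : PadicInt 3) * (((M N j : ℤ) : PadicInt 3) - a j) := by
    rw [← h1]
    push_cast
    rw [← Finset.sum_sub_distrib]
    refine Finset.sum_congr rfl fun j _ => ?_
    ring
  rw [e]
  refine (nonarch_sub _ _).trans (max_le ?_ ?_)
  · push_cast
    rw [norm_mul]
    have h2 : ‖(3 : PadicInt 3) ^ N‖ = (3 : ℝ)⁻¹ ^ N := by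
      have h5 : ‖(3 : PadicInt 3)‖ = (3 : ℝ)⁻¹ := by simpa using PadicInt.norm_p (p := 3)
      rw [norm_pow, h5]
    rw [h2]
    calc (3 : ℝ)⁻¹ ^ N * ‖((crd g i : ℤ) : PadicInt 3)‖ ≤ (3 : ℝ)⁻¹ ^ N * 1 :=
          mul_le_mul_of_nonneg_left (PadicInt.norm_le_one _) (by positivity)
      _ = _ := mul_one _
  · refine IsUltrametricDist.norm_sum_le_of_forall_le_of_nonneg (by positivity) fun j _ => ?_
    rw [norm_mul]
    have h2 := hM N j
    have h3 : (3 : ℝ) ^ (-(N : ℤ)) = (3 : ℝ)⁻¹ ^ N := by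
      rw [zpow_neg, zpow_natCast, inv_pow]
    rw [h3] at h2
    calc _ ≤ 1 * (3 : ℝ)⁻¹ ^ N :=
          mul_le_mul (PadicInt.norm_le_one _) h2 (norm_nonneg _) zero_le_one
      _ = _ := one_mul _

/-- (2): the relation for units of norm 1 -/
theorem rel_minus (hcrt : CrtStmt) {k K : Type} [Field k] [NumberField k] [Field K] [NumberField K]
    [Algebra k K] (hmu : NoMu K) (hW : WMinus k K) [IsGalois k K] (hK : finrank k K = 2)
    (τ : K ≃ₐ[k] K) (hτ : τ ≠ 1) {n : ℕ} (ε : Fin n → (𝓞 K)ˣ) (hε : ∀ i, ε i * cj τ (ε i) = 1)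
    (a : Fin n → PadicInt 3) (m : ℕ → Fin n → ℤ)
    (hm : ∀ i, Tendsto (fun k => ((m k i : ℤ) : PadicInt 3)) atTop (𝓝 (a i)))
    (hdiv : ∀ N : ℕ, ∀ᶠ k in atTop,
        ((3 : ℕ) : 𝓞 K) ^ N ∣ (((∏ i, ε i ^ m k i : (𝓞 K)ˣ) : 𝓞 K) - 1))
    (i : Fin (Units.rank K)) : ∑ j, ((crd (ε j) i : ℤ) : PadicInt 3) * a j = 0 := by
  have hK : ∀ N : ℕ, ∃ K₀ : ℕ, ∀ k, K₀ ≤ k → ∀ i,
      ‖((m k i : ℤ) : PadicInt 3) - a i‖ ≤ (3 : ℝ) ^ (-(N : ℤ)) := by
    intro N
    have h1 : ∀ i, ∀ᶠ k in atTop, ‖((m k i : ℤ) : PadicInt 3) - a i‖ ≤ (3 : ℝ) ^ (-(N : ℤ)) := by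
      intro i
      have h2 := (hm i).sub_const (a i)
      rw [sub_self] at h2
      have h3 := h2.norm
      rw [norm_zero] at h3
      exact (h3.eventually (gt_mem_nhds (by positivity : (0 : ℝ) < (3 : ℝ) ^ (-(N : ℤ))))).mono
        (fun k hk => le_of_lt hk)
    have h4 := eventually_all.2 h1
    exact eventually_atTop.1 h4
  choose K₀ hK₀ using hK
  have hroot : ∀ N : ℕ, ∃ g : (𝓞 K)ˣ, g ^ (3 ^ N) = ∏ i, ε i ^ m (K₀ N) i := by
    intro N
    refine root_unit_rel hmu hW hK τ hτ N _ ?_ ?_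
    · rw [map_prod, ← Finset.prod_mul_distrib]
      refine Finset.prod_eq_one fun i _ => ?_
      rw [map_zpow, ← mul_zpow, hε, one_zpow]
    intro φ
    obtain ⟨k, hk1, hk2⟩ := ((hdiv (N + 2)).and (eventually_ge_atTop (K₀ N))).exists
    have hc : ∀ i, ∃ c : ℤ, m k i = m (K₀ N) i + 3 ^ N * c := by
      intro i
      have h1 := hK₀ N k hk2 i
      have h2 := hK₀ N (K₀ N) le_rfl i
      have h3 : ‖((m k i - m (K₀ N) i : ℤ) : PadicInt 3)‖ ≤ (3 : ℝ) ^ (-(N : ℤ)) := by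
        have e : ((m k i - m (K₀ N) i : ℤ) : PadicInt 3)
            = (((m k i : ℤ) : PadicInt 3) - a i) - (((m (K₀ N) i : ℤ) : PadicInt 3) - a i) := by
          push_cast; ring
        rw [e]
        exact (nonarch_sub _ _).trans (max_le h1 h2)
      have h4 := (PadicInt.norm_int_le_pow_iff_dvd (p := 3) (k := m k i - m (K₀ N) i) (n := N)).1
        (by simpa using h3)
      obtain ⟨c, hc⟩ := h4
      refine ⟨c, ?_⟩
      have : m k i - m (K₀ N) i = 3 ^ N * c := by simpa using hc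
      linarith
    choose c hc using hc
    have hprod : ∏ i, ε i ^ m k i = (∏ i, ε i ^ m (K₀ N) i) * (∏ i, ε i ^ c i) ^ (3 ^ N) := by
      rw [← Finset.prod_pow, ← Finset.prod_mul_distrib]
      refine Finset.prod_congr rfl fun i _ => ?_
      rw [hc i, zpow_add, ← zpow_natCast (ε i ^ c i), ← zpow_mul]
      congr 2
      push_cast
      ring
    have hnorm := norm_sub_one_le φ _ _ hk1
    obtain ⟨t, ht1, ht2⟩ := crt_iter hcrt φ N _ (InLoc.map _) hnorm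
    refine ⟨t * (φ (((∏ i, ε i ^ c i : (𝓞 K)ˣ) : 𝓞 K) : K))⁻¹,
      InLoc.mul ht1 (InLoc.inv (InLoc.map _)), ?_⟩
    rw [mul_pow, ht2, hprod]
    have h0 : φ (((∏ i, ε i ^ c i : (𝓞 K)ˣ) : 𝓞 K) : K) ≠ 0 := by
      rw [_root_.map_ne_zero]
      exact unit_ne _
    have e1 : φ ((((∏ i, ε i ^ m (K₀ N) i) * (∏ i, ε i ^ c i) ^ (3 ^ N) : (𝓞 K)ˣ) : 𝓞 K) : K)
        = φ (((∏ i, ε i ^ m (K₀ N) i : (𝓞 K)ˣ) : 𝓞 K) : K) *
          φ (((∏ i, ε i ^ c i : (𝓞 K)ˣ) : 𝓞 K) : K) ^ (3 ^ N) := by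
      rw [← map_pow, ← map_mul]
      rfl
    rw [e1, inv_pow, mul_assoc, mul_inv_cancel₀ (pow_ne_zero _ h0), mul_one]
  exact crd_lim ε a (fun N => m (K₀ N)) (fun N i => hK₀ N (K₀ N) le_rfl i) hroot i

lemma zpow_sum' {G ι : Type*} [CommGroup G] (g : G) (s : Finset ι) (f : ι → ℤ) :
    g ^ (∑ j ∈ s, f j) = ∏ j ∈ s, g ^ f j := by
  classical
  induction s using Finset.induction_on with
  | empty => simp
  | insert a s ha ih => rw [Finset.sum_insert ha, Finset.prod_insert ha, zpow_add, ih]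

/-- a torsion unit has coordinates zero -/
lemma crd_tors {L : Type} [Field L] [NumberField L] {u : (𝓞 L)ˣ} {w : ℕ} (hw : 0 < w)
    (h : u ^ w = 1) (i : Fin (Units.rank L)) : crd u i = 0 := by
  have h1 := crd_zpow u (w : ℤ) i
  rw [zpow_natCast, h, crd_one] at h1
  have h2 : (w : ℤ) ≠ 0 := by exact_mod_cast hw.ne'
  exact (mul_eq_zero.1 h1.symm).resolve_left h2

lemma crd_fund {L : Type} [Field L] [NumberField L] (j : Fin (Units.rank L)) :
    crd (Units.fundSystem L j) = fun i => if i = j then 1 else 0 := by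
  classical
  refine crd_eq _ 1 _ ?_
  rw [Finset.prod_eq_single j]
  · simp
  · intro i _ hi
    rw [if_neg hi, zpow_zero]
  · intro h
    exact absurd (Finset.mem_univ _) h

/-- (3): the relation in the base field -/
theorem rel_base {k : Type} [Field k] [NumberField k] (hL : LeopoldtAt k 3) {n : ℕ}
    (ν : Fin n → (𝓞 k)ˣ) (a : Fin n → PadicInt 3) (m : ℕ → Fin n → ℤ)
    (hm : ∀ i, Tendsto (fun k => ((m k i : ℤ) : PadicInt 3)) atTop (𝓝 (a i)))
    (hdiv : ∀ N : ℕ, ∀ᶠ l in atTop,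
        ((3 : ℕ) : 𝓞 k) ^ N ∣ (((∏ i, ν i ^ m l i : (𝓞 k)ˣ) : 𝓞 k) - 1))
    (i : Fin (Units.rank k)) : ∑ j, ((crd (ν j) i : ℤ) : PadicInt 3) * a j = 0 := by
  classical
  -- the exponent
  obtain ⟨w, hw0, hw1, hw2⟩ : ∃ w : ℕ, 0 < w ∧
      (∀ u : (𝓞 k)ˣ, (((u ^ w : (𝓞 k)ˣ) : 𝓞 k) - 1) ∈ Ideal.span {((3 : ℕ) : 𝓞 k)}) ∧
      ∀ ζ : Units.torsion k, ((ζ : (𝓞 k)ˣ)) ^ w = 1 := by
    have h30 : ((3 : ℕ) : 𝓞 k) ≠ 0 := Nat.cast_ne_zero.2 (by norm_num)
    have hfin : Finite (𝓞 k ⧸ Ideal.span {((3 : ℕ) : 𝓞 k)}) := by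
      apply Ideal.finiteQuotientOfFreeOfNeBot
      rw [Ne, Ideal.span_singleton_eq_bot]
      exact h30
    have hfin2 : Finite (𝓞 k ⧸ Ideal.span {((3 : ℕ) : 𝓞 k)})ˣ := inferInstance
    refine ⟨Nat.card (𝓞 k ⧸ Ideal.span {((3 : ℕ) : 𝓞 k)})ˣ * Nat.card (Units.torsion k), ?_, ?_, ?_⟩
    · exact Nat.mul_pos Nat.card_pos Nat.card_pos
    · intro u
      rw [← Ideal.Quotient.eq]
      have h1 : (Units.map (Ideal.Quotient.mk (Ideal.span {((3 : ℕ) : 𝓞 k)}) :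
          𝓞 k →* 𝓞 k ⧸ Ideal.span {((3 : ℕ) : 𝓞 k)})) (u ^
          (Nat.card (𝓞 k ⧸ Ideal.span {((3 : ℕ) : 𝓞 k)})ˣ * Nat.card (Units.torsion k))) = 1 := by
        rw [map_pow, pow_mul, pow_card_eq_one', one_pow]
      have h2 := congrArg Units.val h1
      rw [map_one]
      exact h2
    · intro ζ
      rw [mul_comm, pow_mul]
      have h1 : ζ ^ Nat.card (Units.torsion k) = 1 := pow_card_eq_one'
      have h2 : ((ζ : (𝓞 k)ˣ)) ^ Nat.card (Units.torsion k) = 1 := by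
        rw [← Subgroup.coe_pow, h1, Subgroup.coe_one]
      rw [h2, one_pow]
  have hwz : (w : ℤ) ≠ 0 := by exact_mod_cast hw0.ne'
  have hpow : ∀ u : (𝓞 k)ˣ, u ^ w = ∏ i, (Units.fundSystem k i ^ w) ^ crd u i := by
    intro u
    obtain ⟨ζ, h1⟩ := crd_spec u
    have h2 : u ^ w = ((ζ : (𝓞 k)ˣ) * ∏ i, Units.fundSystem k i ^ crd u i) ^ w := by
      conv_lhs => rw [h1]
    rw [h2, mul_pow, hw2, one_mul, ← Finset.prod_pow]
    refine Finset.prod_congr rfl fun i _ => ?_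
    rw [← zpow_natCast, ← zpow_mul, ← zpow_natCast, ← zpow_mul, mul_comm]
  have hmain := hL (Units.rank k) (fun i => Units.fundSystem k i ^ w) ?_ ?_
    (fun i => ∑ j, ((crd (ν j) i : ℤ) : PadicInt 3) * a j)
    (fun l i => ∑ j, crd (ν j) i * m l j) ?_ ?_
  · exact congrFun hmain i
  · intro i
    exact Ideal.le_radical (hw1 _)
  · intro c hc
    funext i
    have h1 := crd_prod (fun i => Units.fundSystem k i ^ w) c i
    rw [hc, crd_one] at h1
    have h2 : ∀ j, crd (Units.fundSystem k j ^ w) i = if i = j then (w : ℤ) else 0 := by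
      intro j
      have h3 := crd_zpow (Units.fundSystem k j) (w : ℤ) i
      rw [zpow_natCast] at h3
      rw [h3, crd_fund]
      by_cases h : i = j
      · simp [h]
      · simp [h]
    simp only [h2] at h1
    rw [Finset.sum_eq_single i] at h1
    · rw [if_pos rfl] at h1
      exact (mul_eq_zero.1 h1.symm).resolve_right hwz
    · intro j _ hj
      rw [if_neg (Ne.symm hj), mul_zero]
    · intro h
      exact absurd (Finset.mem_univ _) h
  · intro i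
    have h1 : Tendsto (fun l => ∑ j, ((crd (ν j) i : ℤ) : PadicInt 3) * ((m l j : ℤ) : PadicInt 3))
        atTop (𝓝 (∑ j, ((crd (ν j) i : ℤ) : PadicInt 3) * a j)) :=
      tendsto_finsetSum _ fun j _ => (hm j).const_mul _
    refine h1.congr fun l => ?_
    push_cast
    rfl
  · intro N
    refine (hdiv N).mono fun l hl => ?_
    have h1 : ∏ i, (Units.fundSystem k i ^ w) ^ (∑ j, crd (ν j) i * m l j) =
        (∏ j, ν j ^ m l j) ^ w := by
      rw [← Finset.prod_pow]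
      have h2 : ∀ j, (ν j ^ m l j) ^ w = ∏ i, (Units.fundSystem k i ^ w) ^ (crd (ν j) i * m l j) := by
        intro j
        rw [← zpow_natCast, ← zpow_mul, mul_comm (m l j), zpow_mul, zpow_natCast, hpow,
          ← Finset.prod_zpow]
        refine Finset.prod_congr rfl fun i _ => ?_
        rw [← zpow_mul]
      rw [Finset.prod_congr rfl fun j _ => h2 j, Finset.prod_comm]
      refine Finset.prod_congr rfl fun i _ => ?_
      exact zpow_sum' _ _ _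
    rw [h1]
    refine hl.trans ?_
    have h3 := sub_dvd_pow_sub_pow (((∏ j, ν j ^ m l j : (𝓞 k)ˣ) : 𝓞 k)) 1 w
    rw [one_pow] at h3
    rw [Units.val_pow_eq_pow_val]
    exact h3

end Pool.Agent.LeoK.H75
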