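import Pool.Agent.Helper75_LeoK.Tools

/-!
Squad leok, module REDM: if there is no `Bad` pair then the relative Selmer type group vanishes.
-/

set_option autoImplicit false

open NumberField IsDedekindDomain WithZero Module Polynomial
open Pool.Agent.Helper85_Leo Pool.Agent.Leo3

namespace Pool.Agent.LeoK.H75

/-- the norm of a quadratic extension -/
lemma norm_quad {k K : Type} [Field k] [CharZero k] [Field K] [Algebra k K]
    [FiniteDimensional k K] [IsGalois k K] (hK : finrank k K = 2) (τ : K ≃ₐ[k] K) (hτ : τ ≠ 1)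
    (z : K) : algebraMap k K (Algebra.norm k z) = z * τ z := by
  classical
  rw [Algebra.norm_eq_prod_automorphisms]
  have hcard : Fintype.card (K ≃ₐ[k] K) = 2 := by
    rw [← Nat.card_eq_fintype_card, IsGalois.card_aut_eq_finrank, hK]
  have huniv : (Finset.univ : Finset (K ≃ₐ[k] K)) = {1, τ} :=
    (Finset.eq_univ_of_card _ (by rw [Finset.card_pair hτ.symm, hcard])).symm
  rw [huniv, Finset.prod_pair hτ.symm]
  rfl

/-- REDM. -/
theorem redm : RedmStmt := by
  intro k K _ _ _ _ _ m r hK hr hnsq hnm hno z hz hnorm hvz hlz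
  by_contra hnc
  obtain ⟨c, hc⟩ := hnorm
  have hrn : ∀ x : k, algebraMap k K x ≠ r := by
    intro x hx
    apply hnsq x
    apply (algebraMap k K).injective
    rw [map_pow, hx, hr]
  have hm0 : (m : k) ≠ 0 := by
    intro h
    apply hnsq 0
    rw [h, mul_zero, zero_pow two_ne_zero]
  have : FiniteDimensional k K := Module.finite_of_finrank_pos (by omega)
  have : Algebra.IsQuadraticExtension k K := ⟨hK⟩
  obtain ⟨τ, hτ⟩ := Pool.Agent.Leo3.H60.exists_conj (K := k) (L := K) r (3 * (m : k)) hr hrn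
  have hspan := fun z : K => quad_span hK hrn z
  have hr0 : r ≠ 0 := by
    intro h
    exact hrn 0 (by rw [map_zero, h])
  have hτ1 : τ ≠ 1 := by
    intro h
    rw [h] at hτ
    have h1 : r = -r := hτ
    have h2 : 2 * r = 0 := by linear_combination h1
    rcases mul_eq_zero.1 h2 with h3 | h3
    · exact two_ne_zero h3
    · exact hr0 h3
  obtain ⟨ι, hι⟩ : ∃ ι : k →+* K, ι = algebraMap k K := ⟨_, rfl⟩
  obtain ⟨a, b, hab⟩ := hspan z
  have hr' : r ^ 2 = 3 * ι (m : k) := by rw [hr, hι, map_mul, map_ofNat]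
  have hτz : τ z = ι a - ι b * r := by
    rw [hab, map_add, map_mul, hτ, τ.commutes, τ.commutes, hι]
    ring
  have hab' : z = ι a + ι b * r := by rw [hι]; exact hab
  have hτz0 : τ z ≠ 0 := by simpa using hz
  obtain ⟨P, hP⟩ : ∃ P : k, P = a ^ 2 - 3 * (m : k) * b ^ 2 := ⟨_, rfl⟩
  have hPz : ι P = z * τ z := by
    rw [hτz, hP]
    conv_rhs => rw [hab']
    rw [map_sub, map_mul, map_mul, map_pow, map_pow, map_ofNat]
    linear_combination (ι b) ^ 2 * hr'
  have hP0 : P ≠ 0 := by
    intro h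
    rw [h, map_zero] at hPz
    rcases mul_eq_zero.1 hPz.symm with h1 | h1
    · exact hz h1
    · exact hτz0 h1
  have hP0F : ι P ≠ 0 := (_root_.map_ne_zero ι).2 hP0
  have hPc : P = c ^ 3 := by
    apply ι.injective
    rw [hPz, ← hc, hι, norm_quad hK τ hτ1]
  have hn0F : (ι c) ^ 3 = ι P := by rw [← map_pow, hPc]
  have hn00 : ι c ≠ 0 := by
    intro h
    rw [h, zero_pow three_ne_zero] at hn0F
    exact hP0F hn0F.symm
  have hvalτ : ValCube3 (τ z) := valCube3_conj (τ : K ≃+* K) hvz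
  -- the minus part is not a cube
  have hcube : ¬ ∃ κ : K, κ ^ 3 = z / τ z := by
    rintro ⟨κ, hκ⟩
    have hκ0 : κ ≠ 0 := by
      rintro rfl
      rw [zero_pow three_ne_zero] at hκ
      rcases div_eq_zero_iff.1 hκ.symm with h | h
      · exact hz h
      · exact hτz0 h
    apply hnc
    refine ⟨z / (ι c * κ), ?_⟩
    rw [div_pow, mul_pow, hn0F, hκ, hPz]
    field_simp
  obtain ⟨t₀, ht₀⟩ : ∃ t₀ : k, t₀ = 2 * (a ^ 2 + 3 * (m : k) * b ^ 2) / P := ⟨_, rfl⟩
  obtain ⟨s₀, hs₀⟩ : ∃ s₀ : k, s₀ = 4 * a * b / P := ⟨_, rfl⟩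
  have hζ : z / τ z = (ι t₀ + ι s₀ * r) / 2 := by
    have h1 : z / τ z = z ^ 2 / ι P := by rw [hPz]; field_simp
    rw [h1, ht₀, hs₀, map_div₀, map_div₀, map_mul, map_mul, map_mul, map_add, map_mul, map_mul,
      map_pow, map_pow, map_ofNat, map_ofNat, map_ofNat, hab']
    field_simp
    linear_combination 2 * (ι b) ^ 2 * hr'
  have hζ' : τ z / z = (ι t₀ - ι s₀ * r) / 2 := by
    have h1 : τ z / z = (τ z) ^ 2 / ι P := by rw [hPz]; field_simp
    rw [h1, ht₀, hs₀, hτz, map_div₀, map_div₀, map_mul, map_mul, map_mul, map_add, map_mul,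
      map_mul, map_pow, map_pow, map_ofNat, map_ofNat, map_ofNat]
    field_simp
    linear_combination 2 * (ι b) ^ 2 * hr'
  have hsum : ι t₀ = z / τ z + τ z / z := by rw [hζ, hζ']; ring
  have hdisc : t₀ ^ 2 - 4 = 3 * (m : k) * s₀ ^ 2 := by
    rw [ht₀, hs₀]
    field_simp
    rw [hP]
    ring
  refine hno t₀ s₀ ⟨hdisc, ?_, ?_, ?_⟩
  · intro x hx
    apply hcube
    rw [hζ]
    have h2 := no_root (r := r) hr hm0 hdisc hx
    rw [← hι] at h2
    exact h2
  · intro q hq
    by_cases hle : q.valuation k t₀ ≤ 1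
    · exact Or.inl hle
    right
    push Not at hle
    obtain ⟨Q, e, he, hmem, hv⟩ := exists_above hK q
    have hQ3 : (3 : 𝓞 K) ∉ Q.asIdeal := by
      intro h
      apply hq
      rw [← hmem 3, map_ofNat]
      exact h
    obtain ⟨x1, hx1⟩ := hvz Q hQ3
    obtain ⟨x2, hx2⟩ := hvalτ Q hQ3
    have hvt : Q.valuation K (ι t₀) = (q.valuation k t₀) ^ e := by rw [hι]; exact hv t₀
    have hgt : 1 < Q.valuation K (ι t₀) := by
      rw [hvt]
      exact one_lt_pow₀ hle (by rcases he with rfl | rfl <;> norm_num)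
    have hv1 : Q.valuation K (z / τ z) = (x1 / x2) ^ 3 := by rw [map_div₀, hx1, hx2, div_pow]
    have hv2 : Q.valuation K (τ z / z) = (x2 / x1) ^ 3 := by rw [map_div₀, hx1, hx2, div_pow]
    have hmul : Q.valuation K (z / τ z) * Q.valuation K (τ z / z) = 1 := by
      rw [← map_mul, div_mul_div_comm, mul_comm z, div_self (mul_ne_zero hτz0 hz), map_one]
    have hcub : ∃ c : ℤᵐ⁰, Q.valuation K (ι t₀) = c ^ 3 := by
      rcases lt_trichotomy (Q.valuation K (z / τ z)) (Q.valuation K (τ z / z)) with h | h | h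
      · refine ⟨x2 / x1, ?_⟩
        rw [hsum, Valuation.map_add_eq_of_lt_right _ h, hv2]
      · exfalso
        have hle := Valuation.map_add (Q.valuation K) (z / τ z) (τ z / z)
        rw [← hsum, ← h, max_self] at hle
        rw [← h] at hmul
        have h8 : Q.valuation K (z / τ z) ≤ 1 := by
          by_contra h9
          push Not at h9
          have := one_lt_mul'' h9 h9
          rw [hmul] at this
          exact lt_irrefl _ this
        exact absurd (hgt.trans_le (hle.trans h8)) (lt_irrefl _)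
      · refine ⟨x1 / x2, ?_⟩
        rw [hsum, Valuation.map_add_eq_of_lt_left _ h, hv1]
    obtain ⟨y, hy⟩ := hcub
    rw [hvt] at hy
    have h0 : q.valuation k t₀ ≠ 0 := (zero_lt_one.trans hle).ne'
    exact cu he h0 hy
  · intro ψ
    obtain ⟨y, hy, hy3⟩ := local_sum hnm hr hspan τ hτ hz hlz ψ
    exact ⟨y, hy, hy3 t₀ (by rw [← hι]; exact hsum)⟩

end Pool.Agent.LeoK.H75
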